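import Pool.Agent.V7H31.DA.Anti
import Pool.Agent.V7H31.DA.Bits

/-! MP_ec2393_nt: families of elements of odd weights in the double shuffle Lie algebra `dm`, or only in
`Lie[x₀, x₁]`, which are not zero in depth one, for weights `2 b + 1` such that the base `p` digits of the numbers
`2 b` form an antichain: they freely generate a free Lie algebra under the Ihara bracket. There is an infinite set
of such weights with more than `c N / (log N) ^ (3/2)` elements up to `N`.

By Lucas, `p` divides `binom(2b', 2b)` if and only if some base `p` digit of `2b` is larger than the same digit of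
`2b'`. Part (1) assumes this for all pairs `b < b'`; part (2) is the case of numbers `2b` with the same sum of
digits. The starting theorem `PrimePowerWeights` of this page (weights `2 p^e + 1`, `p ≥ 5`) is the case of the
numbers `2 p^e`. In part (3) `p = 2` and `B` consists of the numbers whose binary digits, read from the lowest
one, form a first passage path: in every proper initial segment there are at least as many zeros as ones, but in
all there is one more one than zeros. There are `catalan k` such numbers between `4^k` and `2 * 4^k`. A set of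
numbers `2b` with this antichain property has a convergent sum of the reciprocals, so part (3) is near to the
limit of the method.

In the depth graded Lie algebra the elements of depth one of all odd weights are not free (period polynomials),
so without conditions on the weights such a statement can hold for elements of `dm` only for other reasons.

Proof. The coefficient of `L_(b'_1) ⋯ L_(b'_d) 1`, where `L_b` is the operator `g ↦ f g + D_f g` for
`f = (ad x₀)^(2b) x₁`, at the word with the exponents `2 b_1, …, 2 b_d` is congruent modulo `p` to `1` if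
`b' = b` and to `0` if not: modulo `p` the recursion for these coefficients telescopes. -/

set_option autoImplicit false

namespace Pool.Agent.Results.MP_ec2393_nt.DigitAntichainsH31

open Pool.Agent.H777R4.DM

attribute [local instance 100] LieRing.ofAssociativeRing

/-- `ψ₁, …, ψₙ ∈ Lie[x₀, x₁]` are homogeneous of the distinct weights `2 bᵢ + 1 ≥ 3`, and not zero in depth one: the
coefficient at `x₀^(2 bᵢ) x₁` is not zero. -/
def OddFamily {n : ℕ} (b : Fin n → ℕ) (ψ : Fin n → A) : Prop :=
  Function.Injective b ∧ (∀ i, 1 ≤ b i) ∧ (∀ i, ψ i ∈ LieX) ∧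
    (∀ i u, co (ψ i) u ≠ 0 → u.length = 2 * b i + 1) ∧
    ∀ i, co (ψ i) (List.replicate (2 * b i) 0 ++ [1]) ≠ 0

/-- `ψ₁, …, ψₙ` freely generate a free Lie algebra under the Ihara bracket: there is an injective linear map `φ`
on `ℚ⟨X₁, …, Xₙ⟩` with `φ Xᵢ = ψᵢ` that carries the bracket `[P, Q] = PQ - QP` of the free Lie algebra on
`X₁, …, Xₙ` to the Ihara bracket. -/
def FreelyGenerate {n : ℕ} (ψ : Fin n → A) : Prop :=
  ∃ φ : Al (Fin n) →ₗ[ℚ] A, Function.Injective φ ∧ (∀ i, φ (wd [i]) = ψ i) ∧
    ∀ P ∈ LieN n, ∀ Q ∈ LieN n, φ (P * Q - Q * P) = ihara (φ P) (φ Q)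

/-- (1) Let `p` be a prime. A family of elements of weights `2 bᵢ + 1` as above such that `p` divides
`binom(2 bⱼ, 2 bᵢ)` for all `bᵢ < bⱼ` freely generates a free Lie algebra under the Ihara bracket.

(2) This holds if all the numbers `2 bᵢ` have the same sum of digits in base `p`.

(3) There is a set `B` of natural numbers, with at least `N / (32 (log N)^(3/2))` elements up to `N` for all
`N ≥ 2`, such that every family of elements of weights `2 bᵢ + 1` with `bᵢ ∈ B` freely generates a free Lie
algebra under the Ihara bracket. -/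
theorem result :
    (∀ (p n : ℕ) (b : Fin n → ℕ) (ψ : Fin n → A), p.Prime → OddFamily b ψ →
      (∀ i j, b i < b j → p ∣ (2 * b j).choose (2 * b i)) → FreelyGenerate ψ) ∧
    (∀ (p n : ℕ) (b : Fin n → ℕ) (ψ : Fin n → A), p.Prime → OddFamily b ψ →
      (∀ i j, (Nat.digits p (2 * b i)).sum = (Nat.digits p (2 * b j)).sum) → FreelyGenerate ψ) ∧
    ∃ B : Set ℕ,
      (∀ N : ℕ, 2 ≤ N → (1 / 32 : ℝ) * N / Real.log N ^ (3 / 2 : ℝ) ≤ {b ∈ B | b ≤ N}.ncard) ∧
      ∀ (n : ℕ) (b : Fin n → ℕ) (ψ : Fin n → A), OddFamily b ψ → (∀ i, b i ∈ B) →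
        FreelyGenerate ψ := by
  have h1 : ∀ (p n : ℕ) (b : Fin n → ℕ) (ψ : Fin n → A), p.Prime → OddFamily b ψ →
      (∀ i j, b i < b j → p ∣ (2 * b j).choose (2 * b i)) → FreelyGenerate ψ := by
    rintro p n b ψ hp ⟨hinj, hb, hL, hw, h⟩ hdiv
    exact ⟨PhiN ψ, Pool.Agent.V7H31.DA.anti_injective p hp n b hb hinj hdiv ψ hL hw h,
      (Pool.Agent.H358R3.DM.taskFinalN n ψ).1, (Pool.Agent.H358R3.DM.taskFinalN n ψ).2⟩
  refine ⟨h1, ?_, Pool.Agent.V7H31.DA.firstPassage, Pool.Agent.V7H31.DA.firstPassage_count, ?_⟩
  · intro p n b ψ hp hψ hdig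
    refine h1 p n b ψ hp hψ ?_
    intro i j hij
    have : Fact p.Prime := ⟨hp⟩
    have h2 := sub_one_mul_padicValNat_choose_eq_sub_sum_digits (p := p)
      (show 2 * b i ≤ 2 * b j by omega)
    rw [hdig i j] at h2
    have h3 : 0 < (Nat.digits p (2 * b j - 2 * b i)).sum := by
      by_contra h4
      have h5 : (Nat.digits p (2 * b j - 2 * b i)).sum = 0 := by omega
      have h6 : ∀ x ∈ Nat.digits p (2 * b j - 2 * b i), x = 0 := List.sum_eq_zero_iff.mp h5
      have h7 : 2 * b j - 2 * b i ≠ 0 := by omega
      have h8 := Nat.getLast_digit_ne_zero p h7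
      exact h8 (h6 _ (List.getLast_mem _))
    have h4 : 0 < (p - 1) * padicValNat p ((2 * b j).choose (2 * b i)) := by
      rw [h2]
      omega
    have h5 : padicValNat p ((2 * b j).choose (2 * b i)) ≠ 0 := by
      intro h6
      rw [h6, mul_zero] at h4
      exact absurd h4 (lt_irrefl _)
    exact dvd_of_one_le_padicValNat (Nat.one_le_iff_ne_zero.mpr h5)
  · intro n b ψ hψ hB
    exact h1 2 n b ψ Nat.prime_two hψ fun i j hij =>
      Pool.Agent.V7H31.DA.firstPassage_div (hB i) (hB j) hij

end Pool.Agent.Results.MP_ec2393_nt.DigitAntichainsH31
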