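import Pool.Agent.V7H62.DM.Four

/-! MP_ec2393_nt: in odd weight the fourth layer of the filtration of the double shuffle Lie algebra
`dm` by the number of letters `x₀` is zero. -/

set_option autoImplicit false

namespace Pool.Agent.Results.MP_ec2393_nt.FourLettersOddWeightH62

open Pool.Agent.H777R4.DM

/-- The elements of `dm`, homogeneous of weight `N`, all of whose words contain at least `k`
letters `x₀`. -/
def Fil (N k : ℕ) : Submodule ℚ A where
  carrier := {ψ | IsDM ψ ∧ ∀ u, co ψ u ≠ 0 → u.length = N ∧ k ≤ u.count 0}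
  add_mem' := by
    rintro ψ φ ⟨h1, h2⟩ ⟨h3, h4⟩
    refine ⟨isDM_add h1 h3, fun u hu => ?_⟩
    rw [co_add] at hu
    by_cases h : co ψ u = 0
    · refine h4 u fun h' => hu ?_
      rw [h, h', add_zero]
    · exact h2 u h
  zero_mem' := ⟨isDM_zero, fun u hu => absurd (co_zero u) hu⟩
  smul_mem' := by
    rintro c ψ ⟨h1, h2⟩
    refine ⟨isDM_smul h1 c, fun u hu => h2 u fun h' => hu ?_⟩
    rw [co_smul, h', mul_zero]

/-- Let `N` be odd.  An element of the double shuffle Lie algebra `dm`, homogeneous of weight `N`,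
with at least four letters `x₀` in each of its words, has at least five letters `x₀` in each of its
words. -/
theorem result (N : ℕ) (hN : Odd N) : Fil N 4 = Fil N 5 := by
  apply le_antisymm
  · rintro ψ ⟨h1, h2⟩
    refine ⟨h1, fun u hu => ⟨(h2 u hu).1, ?_⟩⟩
    have h3 := (h2 u hu).2
    by_contra h4
    exact hu (Pool.Agent.V7H62.DM.four_odd h1 (N := N) (fun v hv => (h2 v hv).1)
      (fun v hv => (h2 v hv).2) hN u (by omega))
  · rintro ψ ⟨h1, h2⟩
    exact ⟨h1, fun u hu => ⟨(h2 u hu).1, by have := (h2 u hu).2; omega⟩⟩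

end Pool.Agent.Results.MP_ec2393_nt.FourLettersOddWeightH62
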