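import Pool.Agent.V7H19.DS.Main2
import Pool.Agent.V7H19.DS.Dig

/-! MP_ec2393_nt: homogeneous elements in ALL the weights of a residue class, a set of weights of positive
density, freely generate a free Lie algebra under the Ihara bracket, whichever elements we choose.

For instance: whenever an element of weight `N` of the double shuffle Lie algebra, or only of `Lie[x₀, x₁]`, with
a nonzero coefficient in depth one is chosen for every `N ≡ 5 mod 18`, these elements are free generators of
the Lie algebra they generate. The general statement: `p` is an odd prime, and two digits of `2 b` to the base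
`p` are given and lie between `1` and `p - 2`; the weights are all the numbers `2 b + 1`.

In the depth graded Lie algebra the depth one elements of all odd weights satisfy the relations given by the
period polynomials, so a condition on the weights is needed for such a statement.

Proof. Let `L_b` be the operator `g ↦ f g + D_f g` for `f = (ad x₀)^(2b) x₁`. For a word `(b_1, …, b_d)` we look
at the coefficient at `x₀^(k_d) x₁ ⋯ x₀^(k_1) x₁` where `k_d = 2 b_d + l_(d-1)`, `k_j = 2 b_j - l_j + l_(j-1)` and
`k_1 = 2 b_1 - l_1`, and the numbers `l_j` are the two powers of `p` belonging to the two digits, in turn.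
Modulo `p` all the binomial coefficients `binom(2b, k_j)` with `j ≥ 2` vanish, so that only one term of `L_b`
is left, and the matrix of the coefficients is triangular modulo `p` with nonzero diagonal entries. -/

set_option autoImplicit false

namespace Pool.Agent.Results.MP_ec2393_nt.PositiveDensityWeightsH19

open Pool.Agent.H777R4.DM

attribute [local instance 100] LieRing.ofAssociativeRing

/-- The elements `ψ₁, …, ψₙ` are free generators for the Ihara bracket: there is an injective linear map `φ` on
`ℚ⟨X₁, …, Xₙ⟩` with `φ Xᵢ = ψᵢ` that carries the bracket `[P, Q] = PQ - QP` of the free Lie algebra on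
`X₁, …, Xₙ` to the Ihara bracket. -/
def FreelyGenerate (n : ℕ) (ψ : Fin n → A) : Prop :=
  ∃ φ : Al (Fin n) →ₗ[ℚ] A, Function.Injective φ ∧ (∀ i, φ (wd [i]) = ψ i) ∧
    ∀ P ∈ LieN n, ∀ Q ∈ LieN n, φ (P * Q - Q * P) = ihara (φ P) (φ Q)

/-- `ψ₁, …, ψₙ` are elements of `Lie[x₀, x₁]`, homogeneous of the weights `N₁, …, Nₙ`, with nonzero coefficients
at `x₀^(Nᵢ - 1) x₁`. -/
def DepthOne (n : ℕ) (N : Fin n → ℕ) (ψ : Fin n → A) : Prop :=
  ∀ i, ψ i ∈ LieX ∧ (∀ u, co (ψ i) u ≠ 0 → u.length = N i) ∧
    co (ψ i) (List.replicate (N i - 1) 0 ++ [1]) ≠ 0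

theorem digits (p : ℕ) (hp : p.Prime) (s t r r' : ℕ) (hst : s ≠ t) (h1 : 1 ≤ r) (h2 : r + 2 ≤ p)
    (h3 : 1 ≤ r') (h4 : r' + 2 ≤ p) (n : ℕ) (b : Fin n → ℕ) (hb : Function.Injective b)
    (hd : ∀ i, 2 * b i / p ^ s % p = r ∧ 2 * b i / p ^ t % p = r') (ψ : Fin n → A)
    (hψ : DepthOne n (fun i => 2 * b i + 1) ψ) : FreelyGenerate n ψ := by
  have : Fact p.Prime := ⟨hp⟩
  refine ⟨PhiN ψ, ?_, (Pool.Agent.H358R3.DM.taskFinalN n ψ).1, (Pool.Agent.H358R3.DM.taskFinalN n ψ).2⟩
  refine Pool.Agent.V7H19.DS.main2 p n b hb ?_ (fun n => if n % 2 = 0 then p ^ s else p ^ t) ?_ ψ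
    (fun i => (hψ i).1) (fun i => (hψ i).2.1) ?_
  · intro i
    by_contra h
    have h0 : b i = 0 := by omega
    have h5 := (hd i).1
    rw [h0, mul_zero, Nat.zero_div, Nat.zero_mod] at h5
    omega
  · refine Pool.Agent.V7H19.DS.tri_digits p s t r r' hst h1 h2 h3 h4 _ ?_
    rintro x ⟨i, rfl⟩
    exact hd i
  · intro i
    have h5 : co (ψ i) (List.replicate (2 * b i) 0 ++ [1]) ≠ 0 := (hψ i).2.2
    exact h5

/-- (1) Let `p` be an odd prime, let `s ≠ t`, let `1 ≤ r, r' ≤ p - 2`, and let `b₁, …, bₙ` be distinct numbers for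
which the digits of `2 bᵢ` to the base `p` at the places `s` and `t` are `r` and `r'`. Then all elements `ψᵢ` of
`Lie[x₀, x₁]` homogeneous of weight `2 bᵢ + 1`, with a nonzero coefficient in depth one, are free generators for
the Ihara bracket.
(2) In particular this holds for all distinct weights `N₁, …, Nₙ ≡ 5 mod 18`. -/
theorem result :
    (∀ (p : ℕ), p.Prime → ∀ (s t r r' : ℕ), s ≠ t → 1 ≤ r → r + 2 ≤ p → 1 ≤ r' → r' + 2 ≤ p →
      ∀ (n : ℕ) (b : Fin n → ℕ), Function.Injective b →
        (∀ i, 2 * b i / p ^ s % p = r ∧ 2 * b i / p ^ t % p = r') →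
          ∀ ψ : Fin n → A, DepthOne n (fun i => 2 * b i + 1) ψ → FreelyGenerate n ψ) ∧
    (∀ (n : ℕ) (N : Fin n → ℕ), Function.Injective N → (∀ i, N i % 18 = 5) →
      ∀ ψ : Fin n → A, DepthOne n N ψ → FreelyGenerate n ψ) := by
  refine ⟨digits, ?_⟩
  intro n N hN h18 ψ hψ
  have h1 : N = fun i => 2 * (N i / 2) + 1 := by
    funext i
    have := h18 i
    omega
  refine digits 3 Nat.prime_three 0 1 1 1 (by omega) (by omega) (by omega) (by omega) (by omega) n
    (fun i => N i / 2) ?_ ?_ ψ ?_
  · intro i j hij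
    apply hN
    have h2 := h18 i
    have h3 := h18 j
    simp only at hij
    omega
  · intro i
    have h2 := h18 i
    simp only [pow_zero, pow_one]
    omega
  · rw [h1] at hψ
    exact hψ

end Pool.Agent.Results.MP_ec2393_nt.PositiveDensityWeightsH19
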