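import Pool.Agent.V7H62.DM.Quo

/-! MP_ec2393_nt: in odd weight the third layer of the filtration of the double shuffle Lie algebra
`dm` by the number of letters `x₀` is not larger than that of the free Lie algebra on
`s₃, s₅, s₇, …`. -/

set_option autoImplicit false

namespace Pool.Agent.Results.MP_ec2393_nt.ThirdLayerOddWeightH62

open Pool.Agent.H777R4.DM

/-- The elements of `dm`, homogeneous of weight `N`, all of whose words contain at least `k`
letters `x₀`. -/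
def Fil (N k : ℕ) : Submodule ℚ A where
  carrier := {ψ | IsDM ψ ∧ ∀ u, co ψ u ≠ 0 → u.length = N ∧ k ≤ u.count 0}
  add_mem' := by
    rintro ψ φ ⟨h1, h2⟩ ⟨h3, h4⟩
    refine ⟨isDM_add h1 h3, fun u hu => ?_⟩
    rw [co_add] at hu
    by_cases h : co ψ u = 0
    · refine h4 u fun h' => hu ?_
      rw [h, h', add_zero]
    · exact h2 u h
  zero_mem' := ⟨isDM_zero, fun u hu => absurd (co_zero u) hu⟩
  smul_mem' := by
    rintro c ψ ⟨h1, h2⟩
    refine ⟨isDM_smul h1 c, fun u hu => h2 u fun h' => hu ?_⟩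
    rw [co_smul, h', mul_zero]

theorem fil_mono (N : ℕ) {k l : ℕ} (h : k ≤ l) : Fil N l ≤ Fil N k := by
  rintro ψ ⟨h1, h2⟩
  exact ⟨h1, fun u hu => ⟨(h2 u hu).1, h.trans (h2 u hu).2⟩⟩

/-- Let `N` be odd and let `dm_N` be the part of weight `N` of the double shuffle Lie algebra `dm`.
The elements of `dm_N` with at least three letters `x₀` in each of their words form, modulo those
with at least four, a space of dimension at most `⌊((N - 3)² - 1) / 48⌋`; and `dm_N` modulo the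
elements with at least four letters `x₀` in each of their words has dimension at most
`1 + ⌊((N - 3)² - 1) / 48⌋`. -/
theorem result (N : ℕ) (hN : Odd N) :
    (Module.Finite ℚ (Fil N 3 ⧸ (Fil N 4).submoduleOf (Fil N 3)) ∧
      Module.finrank ℚ (Fil N 3 ⧸ (Fil N 4).submoduleOf (Fil N 3)) ≤ ((N - 3) ^ 2 - 1) / 48) ∧
    (Module.Finite ℚ (Fil N 0 ⧸ (Fil N 4).submoduleOf (Fil N 0)) ∧
      Module.finrank ℚ (Fil N 0 ⧸ (Fil N 4).submoduleOf (Fil N 0)) ≤
        1 + ((N - 3) ^ 2 - 1) / 48) := by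
  have h34 : Module.Finite ℚ (Fil N 3 ⧸ (Fil N 4).submoduleOf (Fil N 3)) ∧
      Module.finrank ℚ (Fil N 3 ⧸ (Fil N 4).submoduleOf (Fil N 3)) ≤ ((N - 3) ^ 2 - 1) / 48 := by
    by_cases h3 : N ≤ 3
    · have := Y759.QS.quot_le (Fil N 3) (Fil N 4) ∅ fun ψ hψ _ => ⟨hψ.1, fun u hu =>
        absurd (Pool.Agent.V7H62.DM.three_small hψ.1 (fun v hv => (hψ.2 v hv).1)
          (fun v hv => (hψ.2 v hv).2) h3 u) hu⟩
      exact ⟨this.1, this.2.trans (by simp)⟩
    · obtain ⟨ρ, hρ, hρ0⟩ : ∃ ρ, N = 2 * ρ + 3 ∧ 0 < ρ := by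
        obtain ⟨k, hk⟩ := hN
        exact ⟨k - 1, by omega, by omega⟩
      have h1 := Pool.Agent.V7H62.DM.quot_of (V := Fil N 3) (U := Fil N 4) (ρ := ρ)
        (fun ψ hψ => Pool.Agent.V7H62.DM.fvL_mem hψ.1 (fun v hv => (hψ.2 v hv).1)
          (fun v hv => (hψ.2 v hv).2) hρ)
        (fun ψ hψ h0 => ⟨hψ.1, fun u hu => ⟨(hψ.2 u hu).1, by
          have h5 := (hψ.2 u hu).2
          by_contra h6
          exact hu (Pool.Agent.V7H62.DM.three_zero hψ.1 (fun x => congrFun h0 x) u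
            (by omega))⟩⟩)
      refine ⟨h1.1, h1.2.trans ?_⟩
      have h2 := Pool.Agent.V7H62.DM.Sp_finrank hρ0
      rwa [show N - 3 = 2 * ρ by omega]
  refine ⟨h34, ?_⟩
  have h03 : Module.Finite ℚ (Fil N 0 ⧸ (Fil N 3).submoduleOf (Fil N 0)) ∧
      Module.finrank ℚ (Fil N 0 ⧸ (Fil N 3).submoduleOf (Fil N 0)) ≤ 1 := by
    have := Y759.QS.quot_le (Fil N 0) (Fil N 3) {List.replicate (N - 1) 0 ++ [1]}
      fun ψ hψ h => ⟨hψ.1, fun u hu => ⟨(hψ.2 u hu).1,
        Y759.QS.filt_odd hψ.1 (fun v hv => (hψ.2 v hv).1) hN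
          (h _ (Finset.mem_singleton_self _)) u hu⟩⟩
    simpa using this
  have h := Pool.Agent.V7H62.DM.chain (fil_mono N (Nat.zero_le 3))
    (fil_mono N (show 3 ≤ 4 by norm_num)) h03.1 h34.1
  exact ⟨h.1, h.2.trans (add_le_add h03.2 h34.2)⟩

end Pool.Agent.Results.MP_ec2393_nt.ThirdLayerOddWeightH62
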